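import Mathlib

/-!
Greenberg-Hastings model with threshold 2 on a locally finite graph.
-/

namespace Pool.Agent.H312GHM

open MeasureTheory

variable {V : Type} (G : SimpleGraph V) [G.LocallyFinite] {κ : ℕ} [NeZero κ]

/-- one synchronous update of the Greenberg-Hastings model with threshold `θ = 2`: a vertex in
state `c ≠ 0` moves to `c + 1` (modulo `κ`); a vertex in state `0` moves to `1` if at least two of
its neighbours are in state `1`, and stays at `0` otherwise -/
def ghmStep (γ : V → Fin κ) : V → Fin κ := fun v =>
  if γ v = 0 then
    (if 2 ≤ ((G.neighborFinset v).filter (fun u => γ u = 1)).card then 1 else 0)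
  else γ v + 1

/-- the configuration at time `t` started from `γ` -/
def traj (γ : V → Fin κ) : ℕ → V → Fin κ
  | 0 => γ
  | t + 1 => ghmStep G (traj γ t)

/-- the uniform product measure on colourings -/
noncomputable def unif (V : Type) (κ : ℕ) [NeZero κ] : Measure (V → Fin κ) :=
  Measure.infinitePi fun _ : V => (PMF.uniformOfFintype (Fin κ)).toMeasure

/-- fixation: every vertex is eventually in state `0` forever -/
def Fixates (γ : V → Fin κ) : Prop := ∀ v, ∃ T : ℕ, ∀ t, T ≤ t → traj G γ t v = 0

end Pool.Agent.H312GHM
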