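import Pool.Agent.H312GHM.Defs

namespace Pool.Agent.H312GHM

open Finset SimpleGraph Classical

variable {V : Type} {G : SimpleGraph V} [G.LocallyFinite] {k : ℕ}

/-- necessary event for `u` to be excited at time `t` while its neighbour `v` is at rest -/
noncomputable def E (G : SimpleGraph V) [G.LocallyFinite] (k : ℕ) :
    ℕ → V → V → Set (V → Fin (k + 3))
  | 0, u, _ => {γ | γ u = 1}
  | t + 1, u, v => {γ | (γ u = 0 ∨ k + 3 ≤ (γ u).val + t) ∧
      2 ≤ (((G.neighborFinset u).erase v).filter (fun w => γ ∈ E G k t w u)).card}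

noncomputable def Bs (G : SimpleGraph V) [G.LocallyFinite] : ℕ → V → V → Finset V
  | 0, u, _ => {u}
  | t + 1, u, v => insert u (((G.neighborFinset u).erase v).biUnion (fun w => Bs G t w u))

theorem own_val (γ : V → Fin (k + 3)) (u : V) (h0 : γ u ≠ 0) :
    ∀ t, (γ u).val + t < k + 3 → (traj G γ t u).val = (γ u).val + t := by
  intro t
  induction t with
  | zero => intro _; rfl
  | succ t ih =>
    intro ht
    have h1 := ih (by omega)
    have hpos : 0 < (γ u).val := Nat.pos_of_ne_zero (fun h => h0 (Fin.ext h))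
    have h2 : traj G γ t u ≠ 0 := by
      intro h
      rw [h] at h1
      simp at h1
      omega
    simp only [traj, ghmStep]
    rw [if_neg h2, Fin.val_add, h1]
    simp only [Fin.val_one]
    rw [Nat.mod_eq_of_lt (by omega)]
    omega

theorem own (γ : V → Fin (k + 3)) (u : V) (t : ℕ) (h : traj G γ t u = 0) :
    γ u = 0 ∨ k + 3 ≤ (γ u).val + t := by
  by_contra hc
  push Not at hc
  have h1 := own_val (G := G) γ u hc.1 t hc.2
  rw [h] at h1
  have h2 : ((0 : Fin (k + 3)).val) = 0 := rfl
  rw [h2] at h1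
  exact hc.1 (Fin.ext (by rw [h2]; omega))

theorem one_ne_zero' : (1 : Fin (k + 3)) ≠ 0 := by
  intro h
  have := congrArg Fin.val h
  simp at this

theorem two_ne_zero' : (1 : Fin (k + 3)) + 1 ≠ 0 := by
  intro h
  have := congrArg Fin.val h
  rw [Fin.val_add] at this
  simp at this
  rw [Nat.mod_eq_of_lt (by omega)] at this
  omega

theorem step_one {γ : V → Fin (k + 3)} {u : V} (h : ghmStep G γ u = 1) :
    γ u = 0 ∧ 2 ≤ ((G.neighborFinset u).filter (fun w => γ w = 1)).card := by
  unfold ghmStep at h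
  split_ifs at h with h1 h2
  · exact ⟨h1, h2⟩
  · exact absurd h.symm one_ne_zero'
  · exfalso
    apply h1
    have : γ u + 1 = 0 + 1 := by rw [h, zero_add]
    exact add_right_cancel this

theorem step_zero {γ : V → Fin (k + 3)} {v : V} (h : ghmStep G γ v = 0) : γ v ≠ 1 := by
  intro h1
  unfold ghmStep at h
  rw [h1, if_neg one_ne_zero'] at h
  exact two_ne_zero' h

theorem det (γ : V → Fin (k + 3)) : ∀ (t : ℕ) (u v : V), G.Adj u v →
    traj G γ t u = 1 → traj G γ t v = 0 → γ ∈ E G k t u v := by
  intro t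
  induction t with
  | zero => intro u v _ h _; exact h
  | succ t ih =>
    intro u v huv h1 h2
    obtain ⟨hu, hc⟩ := step_one h1
    have hv := step_zero h2
    refine ⟨own γ u t hu, hc.trans (card_le_card ?_)⟩
    intro w hw
    simp only [mem_filter, mem_erase, mem_neighborFinset] at hw ⊢
    refine ⟨⟨?_, hw.1⟩, ih w u hw.1.symm hw.2 hu⟩
    rintro rfl
    exact hv hw.2

/-- excitation of `v` at time `t+1` needs an excited neighbour -/
theorem det_root (γ : V → Fin (k + 3)) (t : ℕ) (v : V) (h : traj G γ (t + 1) v = 1) :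
    ∃ w ∈ G.neighborFinset v, γ ∈ E G k t w v := by
  obtain ⟨hv, hc⟩ := step_one h
  obtain ⟨w, hw⟩ : ((G.neighborFinset v).filter (fun w => traj G γ t w = 1)).Nonempty := by
    rw [← card_pos]; omega
  simp only [mem_filter, mem_neighborFinset] at hw
  exact ⟨w, by simpa using hw.1, det γ t w v hw.1.symm hw.2 hv⟩

theorem traj_eventually_zero (γ : V → Fin (k + 3)) (v : V) (T : ℕ)
    (h : ∀ t, T ≤ t → traj G γ t v ≠ 1) : ∃ T', ∀ t, T' ≤ t → traj G γ t v = 0 := by
  have stay : ∀ s, T ≤ s → traj G γ s v = 0 → ∀ j, traj G γ (s + j) v = 0 := by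
    intro s hs h0 j
    induction j with
    | zero => exact h0
    | succ j ih =>
      have h1 := h (s + j + 1) (by omega)
      rw [← add_assoc]
      simp only [traj, ghmStep] at h1 ⊢
      rw [if_pos ih] at h1 ⊢
      split_ifs at h1 ⊢ with h2
      · exact absurd rfl h1
      · rfl
  have reach : ∀ m : ℕ, ∀ s, T ≤ s → k + 3 - (traj G γ s v).val ≤ m →
      ∃ s', T ≤ s' ∧ traj G γ s' v = 0 := by
    intro m
    induction m with
    | zero =>
      intro s _ h1
      have := (traj G γ s v).isLt
      omega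
    | succ m ih =>
      intro s hs h1
      by_cases h0 : traj G γ s v = 0
      · exact ⟨s, hs, h0⟩
      · have hlt := (traj G γ s v).isLt
        have hstep : traj G γ (s + 1) v = traj G γ s v + 1 := by
          simp only [traj, ghmStep]
          rw [if_neg h0]
        by_cases h2 : (traj G γ s v).val + 1 = k + 3
        · refine ⟨s + 1, by omega, ?_⟩
          rw [hstep]
          apply Fin.ext
          rw [Fin.val_add]
          simp only [Fin.val_one]
          rw [h2]
          simp
        · refine ih (s + 1) (by omega) ?_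
          rw [hstep, Fin.val_add]
          simp only [Fin.val_one]
          rw [Nat.mod_eq_of_lt (by omega)]
          omega
  obtain ⟨s, hs, h0⟩ := reach (k + 3) T le_rfl (by omega)
  refine ⟨s, fun t ht => ?_⟩
  have := stay s hs h0 (t - s)
  rwa [Nat.add_sub_cancel' ht] at this

theorem E_dep (γ γ' : V → Fin (k + 3)) : ∀ (t : ℕ) (u v : V),
    (∀ x ∈ Bs G t u v, γ x = γ' x) → (γ ∈ E G k t u v ↔ γ' ∈ E G k t u v) := by
  intro t
  induction t with
  | zero =>
    intro u v h
    have := h u (by simp [Bs])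
    simp only [E, Set.mem_ofPred_eq, this]
  | succ t ih =>
    intro u v h
    have hu := h u (by simp [Bs])
    have hf : ((G.neighborFinset u).erase v).filter (fun w => γ ∈ E G k t w u) =
        ((G.neighborFinset u).erase v).filter (fun w => γ' ∈ E G k t w u) := by
      apply filter_congr
      intro w hw
      apply ih
      intro x hx
      apply h
      simp only [Bs, mem_insert, mem_biUnion]
      exact Or.inr ⟨w, hw, hx⟩
    simp only [E, Set.mem_ofPred_eq, hu, hf]

theorem Bs_path (hG : G.IsAcyclic) : ∀ (t : ℕ) (u v x : V) (h : G.Adj v u), x ∈ Bs G t u v →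
    ∃ q : G.Walk u x, (Walk.cons h q).IsPath := by
  intro t
  induction t with
  | zero =>
    intro u v x h hx
    simp only [Bs, mem_singleton] at hx
    subst hx
    refine ⟨Walk.nil, ?_⟩
    simp [h.ne]
  | succ t ih =>
    intro u v x h hx
    simp only [Bs, mem_insert, mem_biUnion, mem_erase, mem_neighborFinset] at hx
    rcases hx with rfl | ⟨w, ⟨hwv, huw⟩, hxw⟩
    · refine ⟨Walk.nil, ?_⟩
      simp [h.ne]
    · obtain ⟨q', hq'⟩ := ih w u x huw hxw
      refine ⟨Walk.cons huw q', ?_⟩
      rw [Walk.cons_isPath_iff]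
      refine ⟨hq', fun hv => ?_⟩
      set q := Walk.cons huw q' with hqdef
      have h1 : (q.takeUntil v hv).IsPath := hq'.takeUntil hv
      have h2 : (Walk.cons h.symm Walk.nil : G.Walk u v).IsPath := by simp [h.ne']
      have h3 := (hG.subsingleton_path _ _).elim ⟨q.takeUntil v hv, h1⟩ ⟨Walk.cons h.symm Walk.nil, h2⟩
      have h4 : q.takeUntil v hv = Walk.cons h.symm Walk.nil := congrArg Subtype.val h3
      have h5 : (q.takeUntil v hv).getVert 1 = q.getVert 1 := by
        apply Walk.getVert_takeUntil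
        rw [h4]
        simp
      rw [h4] at h5
      have h6 : q.getVert 1 = w := by rw [hqdef]; simp
      rw [h6] at h5
      have h7 : (Walk.cons h.symm Walk.nil : G.Walk u v).getVert 1 = v := by simp
      rw [h7] at h5
      exact hwv h5.symm

theorem Bs_disj (hG : G.IsAcyclic) (t s : ℕ) {u w1 w2 : V} (h1 : G.Adj u w1) (h2 : G.Adj u w2)
    (hne : w1 ≠ w2) : Disjoint (Bs G t w1 u) (Bs G s w2 u) := by
  rw [Finset.disjoint_left]
  intro x hx1 hx2
  obtain ⟨q1, hq1⟩ := Bs_path hG t w1 u x h1 hx1
  obtain ⟨q2, hq2⟩ := Bs_path hG s w2 u x h2 hx2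
  have h3 := (hG.subsingleton_path _ _).elim ⟨_, hq1⟩ ⟨_, hq2⟩
  have h4 : Walk.cons h1 q1 = Walk.cons h2 q2 := congrArg Subtype.val h3
  have h5 := congrArg (fun q : G.Walk u x => q.getVert 1) h4
  simp at h5
  exact hne h5

theorem Bs_notMem (hG : G.IsAcyclic) (t : ℕ) {u w : V} (h : G.Adj u w) : u ∉ Bs G t w u := by
  intro hu
  obtain ⟨q, hq⟩ := Bs_path hG t w u u h hu
  rw [Walk.cons_isPath_iff] at hq
  exact hq.2 (Walk.end_mem_support q)

end Pool.Agent.H312GHM
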