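import Pool.Agent.H312GHM.Meas

namespace Pool.Agent.H312GHM

open MeasureTheory ProbabilityTheory Finset SimpleGraph Filter
open scoped ENNReal

variable {V : Type} {G : SimpleGraph V} [G.LocallyFinite] {k : ℕ}

theorem E_stepR (hG : G.IsAcyclic) {d : ℕ} (hreg : G.IsRegularOfDegree (d + 1)) (t : ℕ)
    (a : ℝ) (ha0 : 0 ≤ a)
    (ha : ∀ w u, G.Adj u w → (mu V k (E G k t w u)).toReal ≤ a) (u v : V) (huv : G.Adj u v) :
    (mu V k (E G k (t + 1) u v)).toReal ≤
      (d.choose 2 : ℝ) * (((Own k t).card : ℝ) / ((k : ℝ) + 3) * (a * a)) := by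
  have h := E_step (k := k) hG hreg t (ENNReal.ofReal a) (fun w u hwu => by
    rw [← ENNReal.ofReal_toReal (measure_ne_top (mu V k) (E G k t w u))]
    exact ENNReal.ofReal_le_ofReal (ha w u hwu)) u v huv
  have hk : ((k : ℝ≥0∞) + 3) ≠ 0 := by simp
  have hfin : (d.choose 2 : ℝ≥0∞) * (((Own k t).card : ℝ≥0∞) / ((k : ℝ≥0∞) + 3) *
      (ENNReal.ofReal a * ENNReal.ofReal a)) ≠ ⊤ := by
    apply ENNReal.mul_ne_top (by simp)
    apply ENNReal.mul_ne_top
    · exact ENNReal.div_ne_top (by simp) hk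
    · exact ENNReal.mul_ne_top ENNReal.ofReal_ne_top ENNReal.ofReal_ne_top
  have h2 := ENNReal.toReal_mono hfin h
  refine h2.trans (le_of_eq ?_)
  rw [ENNReal.toReal_mul, ENNReal.toReal_mul, ENNReal.toReal_mul, ENNReal.toReal_div,
    ENNReal.toReal_ofReal ha0]
  have : ((k : ℝ≥0∞) + 3).toReal = (k : ℝ) + 3 := by
    rw [ENNReal.toReal_add (by simp) (by simp)]
    simp
  rw [this]
  simp

theorem E_zeroR (w u : V) : (mu V k (E G k 0 w u)).toReal = 1 / ((k : ℝ) + 3) := by
  have h : E G k 0 w u = {γ : V → Fin (k + 3) | γ w ∈ ({1} : Finset (Fin (k + 3)))} := by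
    ext γ; simp [E]
  rw [h, mu_coord, ENNReal.toReal_div]
  have : ((k : ℝ≥0∞) + 3).toReal = (k : ℝ) + 3 := by
    rw [ENNReal.toReal_add (by simp) (by simp)]
    simp
  rw [this]
  simp

theorem own_ratio (t : ℕ) : ((Own k t).card : ℝ) / ((k : ℝ) + 3) ≤ 1 := by
  rw [div_le_one (by positivity)]
  have : (Own k t).card ≤ k + 3 := by
    refine (card_le_univ _).trans ?_
    simp
  exact_mod_cast this

/-- geometric decay -/
theorem geom (hG : G.IsAcyclic) {d : ℕ} (hreg : G.IsRegularOfDegree (d + 1)) (t0 : ℕ)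
    (b r : ℝ) (hb : 0 ≤ b) (hr : 0 ≤ r) (hr1 : r ≤ 1) (hbr : (d.choose 2 : ℝ) * b ≤ r)
    (h0 : ∀ w u, G.Adj u w → (mu V k (E G k t0 w u)).toReal ≤ b) :
    ∀ j : ℕ, ∀ w u, G.Adj u w → (mu V k (E G k (t0 + j) w u)).toReal ≤ b * r ^ j := by
  intro j
  induction j with
  | zero => intro w u h; simpa using h0 w u h
  | succ j ih =>
    intro w u h
    have hbj : 0 ≤ b * r ^ j := by positivity
    have h1 := E_stepR hG hreg (t0 + j) (b * r ^ j) hbj ih w u h.symm
    rw [← add_assoc]
    refine h1.trans ?_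
    have h2 := own_ratio (k := k) (t0 + j)
    have h3 : 0 ≤ ((Own k (t0 + j)).card : ℝ) / ((k : ℝ) + 3) := by positivity
    have hd : (0 : ℝ) ≤ (d.choose 2 : ℝ) := by positivity
    have hrj : r ^ j ≤ 1 := pow_le_one₀ hr hr1
    calc (d.choose 2 : ℝ) * (((Own k (t0 + j)).card : ℝ) / ((k : ℝ) + 3) *
          (b * r ^ j * (b * r ^ j)))
        ≤ (d.choose 2 : ℝ) * (1 * (b * r ^ j * (b * r ^ j))) := by
          gcongr
      _ = ((d.choose 2 : ℝ) * b) * r ^ j * (b * r ^ j) := by ring
      _ ≤ r * 1 * (b * r ^ j) := by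
          gcongr
      _ = b * r ^ (j + 1) := by ring

/-- decay implies fixation -/
theorem fix_of_geom [Countable V] {d : ℕ}
    (hreg : G.IsRegularOfDegree (d + 1)) (t0 : ℕ) (b r : ℝ) (hb : 0 ≤ b) (hr : 0 ≤ r)
    (hr1 : r < 1)
    (h : ∀ j : ℕ, ∀ w u, G.Adj u w → (mu V k (E G k (t0 + j) w u)).toReal ≤ b * r ^ j) :
    ∀ᵐ γ ∂(mu V k), Fixates G γ := by
  unfold Fixates
  rw [ae_all_iff]
  intro v
  have hA : ∀ j : ℕ, mu V k {γ | traj G γ (t0 + j + 1) v = 1} ≤
      ENNReal.ofReal (((d + 1 : ℕ) : ℝ) * b * r ^ j) := by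
    intro j
    have hsub : {γ : V → Fin (k + 3) | traj G γ (t0 + j + 1) v = 1} ⊆
        ⋃ w ∈ G.neighborFinset v, E G k (t0 + j) w v := by
      intro γ hγ
      obtain ⟨w, hw, hE⟩ := det_root γ (t0 + j) v hγ
      simp only [Set.mem_iUnion]
      exact ⟨w, hw, hE⟩
    refine (measure_mono hsub).trans ((measure_biUnion_finset_le _ _).trans ?_)
    have hterm : ∀ w ∈ G.neighborFinset v, mu V k (E G k (t0 + j) w v) ≤
        ENNReal.ofReal (b * r ^ j) := by
      intro w hw
      rw [← ENNReal.ofReal_toReal (measure_ne_top (mu V k) (E G k (t0 + j) w v))]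
      exact ENNReal.ofReal_le_ofReal (h j w v (by simpa using hw))
    refine (sum_le_card_nsmul _ _ _ hterm).trans (le_of_eq ?_)
    rw [G.card_neighborFinset_eq_degree, hreg v, nsmul_eq_mul, mul_assoc,
      ENNReal.ofReal_mul (p := ((d + 1 : ℕ) : ℝ)) (by positivity), ENNReal.ofReal_natCast]
  have hsum : ∑' j : ℕ, mu V k {γ | traj G γ (t0 + j + 1) v = 1} ≠ ⊤ := by
    have hs : Summable (fun j : ℕ => ((d + 1 : ℕ) : ℝ) * b * r ^ j) :=
      (summable_geometric_of_lt_one hr hr1).mul_left _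
    refine ne_top_of_le_ne_top ?_ (ENNReal.tsum_le_tsum hA)
    rw [← ENNReal.ofReal_tsum_of_nonneg (fun j => by positivity) hs]
    exact ENNReal.ofReal_ne_top
  have hbc := ae_eventually_notMem hsum
  filter_upwards [hbc] with γ hγ
  obtain ⟨J, hJ⟩ := eventually_atTop.1 hγ
  apply traj_eventually_zero γ v (t0 + J + 1)
  intro t ht h1
  have := hJ (t - t0 - 1) (by omega)
  apply this
  show traj G γ (t0 + (t - t0 - 1) + 1) v = 1
  have e : t0 + (t - t0 - 1) + 1 = t := by omega
  rw [e]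
  exact h1

theorem card_ineq (c : ℕ) (hc : c ≤ 4) :
    4 * (if 2 ≤ c then 1 else 0) + 5 * c.choose 3 ≤ 4 * c.choose 2 := by
  interval_cases c <;> decide

open Classical in
/-- sharper first step on the 5-regular tree -/
theorem first4 (hreg : G.IsRegularOfDegree (4 + 1)) (u v : V) (huv : G.Adj u v) :
    4 * mu V k (E G k 1 u v) + 5 * (4 * ((1 : ℝ≥0∞) / ((k : ℝ≥0∞) + 3)) ^ 4) ≤
      4 * (6 * ((1 : ℝ≥0∞) / ((k : ℝ≥0∞) + 3)) ^ 3) := by
  set N := (G.neighborFinset u).erase v with hN
  have hNc : N.card = 4 := by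
    rw [hN, card_erase_of_mem (by simpa using huv), G.card_neighborFinset_eq_degree, hreg u]
  have huN : u ∉ N := by simp [hN]
  let a : V → Fin (k + 3) := fun i => if i = u then 0 else 1
  let F : Finset V → Set (V → Fin (k + 3)) := fun S => {γ | ∀ i ∈ insert u S, γ i = a i}
  have hFdep : ∀ S, Dep (insert u S) (F S) := by
    intro S γ γ' h
    simp only [F, Set.mem_ofPred_eq]
    constructor
    · intro h2 i hi; rw [← h i hi]; exact h2 i hi
    · intro h2 i hi; rw [h i hi]; exact h2 i hi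
  have hFm : ∀ S, MeasurableSet (F S) := fun S => dep_meas (hFdep S)
  have hEm : MeasurableSet (E G k 1 u v) := dep_meas (E_Dep 1 u v)
  have hFmu : ∀ m : ℕ, ∀ S ∈ N.powersetCard m, mu V k (F S) =
      ((1 : ℝ≥0∞) / ((k : ℝ≥0∞) + 3)) ^ (m + 1) := by
    intro m S hS
    rw [mem_powersetCard] at hS
    have := mu_cyl (k := k) (insert u S) a
    rw [card_insert_of_notMem (fun hu => huN (hS.1 hu)), hS.2] at this
    exact this
  have hFmem : ∀ (γ : V → Fin (k + 3)), γ u = 0 → ∀ S ⊆ N,
      (γ ∈ F S ↔ S ⊆ N.filter (fun w => γ w = 1)) := by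
    intro γ hγ S hS
    simp only [F, Set.mem_ofPred_eq, mem_insert]
    constructor
    · intro h i hi
      rw [mem_filter]
      refine ⟨hS hi, ?_⟩
      have h2 := h i (Or.inr hi)
      have hne : i ≠ u := fun e => huN (e ▸ hS hi)
      simpa [a, hne] using h2
    · intro h i hi
      rcases hi with rfl | hi
      · simpa [a] using hγ
      · have h2 := (mem_filter.1 (h hi)).2
        have hne : i ≠ u := fun e => huN (e ▸ hS hi)
        simpa [a, hne] using h2
  have hcount : ∀ (γ : V → Fin (k + 3)), γ u = 0 → ∀ m : ℕ,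
      ∑ S ∈ N.powersetCard m, (F S).indicator (fun _ => (1 : ℝ≥0∞)) γ =
        (((N.filter (fun w => γ w = 1)).card.choose m : ℕ) : ℝ≥0∞) := by
    intro γ hγ m
    have h1 : ∀ S ∈ N.powersetCard m, (F S).indicator (fun _ => (1 : ℝ≥0∞)) γ =
        if S ⊆ N.filter (fun w => γ w = 1) then 1 else 0 := by
      intro S hS
      rw [mem_powersetCard] at hS
      simp only [Set.indicator_apply, hFmem γ hγ S hS.1]
    rw [sum_congr rfl h1, sum_boole]
    congr 1
    rw [← card_powersetCard]
    congr 1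
    ext S
    simp only [mem_filter, mem_powersetCard]
    constructor
    · rintro ⟨⟨_, h2⟩, h3⟩
      exact ⟨h3, h2⟩
    · rintro ⟨h3, h2⟩
      exact ⟨⟨h3.trans (filter_subset _ _), h2⟩, h3⟩
  have hpt : ∀ γ : V → Fin (k + 3),
      4 * (E G k 1 u v).indicator (fun _ => (1 : ℝ≥0∞)) γ +
        5 * ∑ S ∈ N.powersetCard 3, (F S).indicator (fun _ => (1 : ℝ≥0∞)) γ ≤
      4 * ∑ S ∈ N.powersetCard 2, (F S).indicator (fun _ => (1 : ℝ≥0∞)) γ := by
    intro γ
    by_cases hγ : γ u = 0
    · rw [hcount γ hγ 3, hcount γ hγ 2]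
      have hE : (E G k 1 u v).indicator (fun _ => (1 : ℝ≥0∞)) γ =
          (((if 2 ≤ (N.filter (fun w => γ w = 1)).card then 1 else 0 : ℕ)) : ℝ≥0∞) := by
        have hiff : γ ∈ E G k 1 u v ↔ 2 ≤ (N.filter (fun w => γ w = 1)).card := by
          simp only [E, Set.mem_ofPred_eq, hγ, true_or, true_and]
          have hs : ∀ (i1 i2 : DecidablePred (fun w => γ w = 1)),
              (@Finset.filter V (fun w => γ w = 1) i1 ((G.neighborFinset u).erase v)) =
              (@Finset.filter V (fun w => γ w = 1) i2 N) := by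
            intro i1 i2
            ext w
            simp [hN]
          constructor
          · intro h
            refine h.trans (le_of_eq (congrArg Finset.card (hs _ _)))
          · intro h
            refine h.trans (le_of_eq (congrArg Finset.card (hs _ _).symm))
        simp only [Set.indicator_apply, hiff]
        split_ifs <;> simp
      rw [hE]
      have := card_ineq (N.filter (fun w => γ w = 1)).card
        ((card_filter_le _ _).trans hNc.le)
      exact_mod_cast this
    · have hE : (E G k 1 u v).indicator (fun _ => (1 : ℝ≥0∞)) γ = 0 := by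
        rw [Set.indicator_apply, if_neg]
        intro h
        have h1 : γ u = 0 ∨ k + 3 ≤ (γ u).val + 0 := h.1
        have := (γ u).isLt
        rcases h1 with h1 | h1
        · exact hγ h1
        · omega
      have hF : ∀ m : ℕ, ∑ S ∈ N.powersetCard m, (F S).indicator (fun _ => (1 : ℝ≥0∞)) γ = 0 := by
        intro m
        apply sum_eq_zero
        intro S _
        rw [Set.indicator_apply, if_neg]
        intro h
        apply hγ
        have := h u (mem_insert_self _ _)
        simpa [a] using this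
      rw [hE, hF, hF]
      simp
  have hint := lintegral_mono (μ := mu V k) hpt
  rw [lintegral_add_left, lintegral_const_mul, lintegral_const_mul, lintegral_const_mul,
    lintegral_finsetSum, lintegral_finsetSum, lintegral_indicator_const hEm, one_mul] at hint
  · have hs : ∀ m : ℕ, ∑ S ∈ N.powersetCard m, ∫⁻ γ, (F S).indicator (fun _ => (1 : ℝ≥0∞)) γ
        ∂(mu V k) = ((Nat.choose 4 m : ℕ) : ℝ≥0∞) * ((1 : ℝ≥0∞) / ((k : ℝ≥0∞) + 3)) ^ (m + 1) := by
      intro m
      have h1 : ∀ S ∈ N.powersetCard m, ∫⁻ γ, (F S).indicator (fun _ => (1 : ℝ≥0∞)) γ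
          ∂(mu V k) = ((1 : ℝ≥0∞) / ((k : ℝ≥0∞) + 3)) ^ (m + 1) := by
        intro S hS
        rw [lintegral_indicator_const (hFm S), one_mul, hFmu m S hS]
      rw [sum_congr rfl h1, sum_const, card_powersetCard, hNc, nsmul_eq_mul]
    have e2 : Nat.choose 4 2 = 6 := rfl
    have e3 : Nat.choose 4 3 = 4 := rfl
    rw [hs 3, hs 2, e2, e3] at hint
    simpa using hint
  · exact fun S _ => measurable_const.indicator (hFm S)
  · exact fun S _ => measurable_const.indicator (hFm S)
  · exact Finset.measurable_sum _ (fun S _ => measurable_const.indicator (hFm S))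
  · exact Finset.measurable_sum _ (fun S _ => measurable_const.indicator (hFm S))
  · exact measurable_const.indicator hEm
  · exact (measurable_const.indicator hEm).const_mul _

theorem case3 [Countable V] (hG : G.IsAcyclic) (hreg : G.IsRegularOfDegree (3 + 1)) :
    ∀ᵐ γ ∂(mu V k), Fixates G γ := by
  have hk : (0 : ℝ) ≤ k := Nat.cast_nonneg k
  have h1 : ∀ w u, G.Adj u w → (mu V k (E G k (0 + 1) w u)).toReal ≤ 1 / 9 := by
    intro w u h
    refine (E_stepR hG hreg 0 (1 / ((k : ℝ) + 3)) (by positivity)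
      (fun w u _ => (E_zeroR w u).le) w u h.symm).trans ?_
    rw [Own_zero]
    have h3 : 1 / ((k : ℝ) + 3) ≤ 1 / 3 := by
      apply one_div_le_one_div_of_le <;> linarith
    have h0 : 0 ≤ 1 / ((k : ℝ) + 3) := by positivity
    have hch : ((Nat.choose 3 2 : ℕ) : ℝ) = 3 := by norm_num [Nat.choose]
    rw [hch]
    push_cast
    calc 3 * (1 / ((k : ℝ) + 3) * (1 / ((k : ℝ) + 3) * (1 / ((k : ℝ) + 3))))
        ≤ 3 * (1 / 3 * (1 / 3 * (1 / 3))) := by gcongr
      _ ≤ 1 / 9 := by norm_num
  have hg := geom hG hreg (0 + 1) (1 / 9) (1 / 3) (by norm_num) (by norm_num) (by norm_num)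
    (by norm_num [Nat.choose]) h1
  exact fix_of_geom hreg (0 + 1) (1 / 9) (1 / 3) (by norm_num) (by norm_num) (by norm_num) hg

theorem case4 [Countable V] (hG : G.IsAcyclic) (hreg : G.IsRegularOfDegree (4 + 1)) :
    ∀ᵐ γ ∂(mu V k), Fixates G γ := by
  rcases Nat.eq_zero_or_pos k with rfl | hk
  · have h1 : ∀ w u, G.Adj u w → (mu V 0 (E G 0 1 w u)).toReal ≤ 13 / 81 := by
      intro w u h
      have hf := first4 (k := 0) hreg w u h.symm
      have hfin := measure_ne_top (mu V 0) (E G 0 1 w u)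
      have h2 := ENNReal.toReal_mono (by
        apply ENNReal.mul_ne_top (by simp)
        apply ENNReal.mul_ne_top (by simp)
        apply ENNReal.pow_ne_top
        exact ENNReal.div_ne_top (by simp) (by simp)) hf
      rw [ENNReal.toReal_add (ENNReal.mul_ne_top (by simp) hfin) (by
        apply ENNReal.mul_ne_top (by simp)
        apply ENNReal.mul_ne_top (by simp)
        apply ENNReal.pow_ne_top
        exact ENNReal.div_ne_top (by simp) (by simp))] at h2
      simp only [ENNReal.toReal_mul, ENNReal.toReal_pow, ENNReal.toReal_div, ENNReal.toReal_ofNat,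
        ENNReal.toReal_one, Nat.cast_zero, zero_add] at h2
      norm_num at h2
      linarith
    have h2 : ∀ w u, G.Adj u w → (mu V 0 (E G 0 2 w u)).toReal ≤ 1 / 9 := by
      intro w u h
      refine (E_stepR hG hreg 1 (13 / 81) (by norm_num) h1 w u h.symm).trans ?_
      have hch : ((Nat.choose 4 2 : ℕ) : ℝ) = 6 := by norm_num [Nat.choose]
      have ho : ((Own 0 1).card : ℝ) ≤ 2 := by exact_mod_cast Own_one (k := 0)
      rw [hch]
      push_cast
      calc 6 * (((Own 0 1).card : ℝ) / (0 + 3) * (13 / 81 * (13 / 81)))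
          ≤ 6 * (2 / (0 + 3) * (13 / 81 * (13 / 81))) := by gcongr
        _ ≤ 1 / 9 := by norm_num
    have hg := geom hG hreg 2 (1 / 9) (2 / 3) (by norm_num) (by norm_num) (by norm_num)
      (by norm_num [Nat.choose]) h2
    exact fix_of_geom hreg 2 (1 / 9) (2 / 3) (by norm_num) (by norm_num) (by norm_num) hg
  · have hk1 : (1 : ℝ) ≤ k := by exact_mod_cast hk
    have h1 : ∀ w u, G.Adj u w → (mu V k (E G k (0 + 1) w u)).toReal ≤ 3 / 32 := by
      intro w u h
      refine (E_stepR hG hreg 0 (1 / ((k : ℝ) + 3)) (by positivity)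
        (fun w u _ => (E_zeroR w u).le) w u h.symm).trans ?_
      rw [Own_zero]
      have h3 : 1 / ((k : ℝ) + 3) ≤ 1 / 4 := by
        apply one_div_le_one_div_of_le <;> linarith
      have h0 : 0 ≤ 1 / ((k : ℝ) + 3) := by positivity
      have hch : ((Nat.choose 4 2 : ℕ) : ℝ) = 6 := by norm_num [Nat.choose]
      rw [hch]
      push_cast
      calc 6 * (1 / ((k : ℝ) + 3) * (1 / ((k : ℝ) + 3) * (1 / ((k : ℝ) + 3))))
          ≤ 6 * (1 / 4 * (1 / 4 * (1 / 4))) := by gcongr
        _ ≤ 3 / 32 := by norm_num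
    have hg := geom hG hreg (0 + 1) (3 / 32) (9 / 16) (by norm_num) (by norm_num) (by norm_num)
      (by norm_num [Nat.choose]) h1
    exact fix_of_geom hreg (0 + 1) (3 / 32) (9 / 16) (by norm_num) (by norm_num) (by norm_num) hg

end Pool.Agent.H312GHM
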