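import Pool.Agent.H312GHM.Det

namespace Pool.Agent.H312GHM

open MeasureTheory ProbabilityTheory Finset SimpleGraph
open scoped ENNReal

variable {V : Type} {G : SimpleGraph V} [G.LocallyFinite] {k : ℕ}

noncomputable abbrev mu (V : Type) (k : ℕ) : Measure (V → Fin (k + 3)) := unif V (k + 3)

instance : IsProbabilityMeasure (mu V k) := by
  unfold mu unif; infer_instance

open Classical in
/-- `A` depends only on the coordinates in `S` -/
def Dep (S : Finset V) (A : Set (V → Fin (k + 3))) : Prop :=
  ∀ γ γ' : V → Fin (k + 3), (∀ x ∈ S, γ x = γ' x) → (γ ∈ A ↔ γ' ∈ A)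

open Classical in
theorem dep_preimage {S : Finset V} {A : Set (V → Fin (k + 3))} (hA : Dep S A) :
    A = (fun (γ : V → Fin (k + 3)) (i : S) => γ i) ⁻¹'
      {x | (fun v => if h : v ∈ S then x ⟨v, h⟩ else (0 : Fin (k + 3))) ∈ A} := by
  ext γ
  simp only [Set.mem_preimage, Set.mem_ofPred_eq]
  apply hA
  intro x hx
  simp [hx]

theorem dep_meas {S : Finset V} {A : Set (V → Fin (k + 3))} (hA : Dep S A) : MeasurableSet A := by
  rw [dep_preimage hA]
  apply MeasurableSet.preimage (Set.toFinite _).measurableSet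
  exact measurable_pi_lambda _ (fun i => measurable_pi_apply _)

theorem dep_indep {S T : Finset V} {A B : Set (V → Fin (k + 3))} (hA : Dep S A) (hB : Dep T B)
    (hST : Disjoint S T) : mu V k (A ∩ B) = mu V k A * mu V k B := by
  have h1 : iIndepFun (fun (i : V) (ω : V → Fin (k + 3)) => ω i) (mu V k) := by
    unfold mu unif
    exact iIndepFun_infinitePi
      (P := fun _ : V => (PMF.uniformOfFintype (Fin (k + 3))).toMeasure)
      (X := fun _ x => x) (fun _ => measurable_id)
  have h2 := h1.indepFun_finset S T hST (fun i => measurable_pi_apply i)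
  have h3 := h2.measure_inter_preimage_eq_mul
  conv_lhs => rw [dep_preimage hA, dep_preimage hB]
  conv_rhs => rw [dep_preimage hA, dep_preimage hB]
  exact h3 _ _ (Set.toFinite _).measurableSet (Set.toFinite _).measurableSet

theorem dep_inter [DecidableEq V] {S T : Finset V} {A B : Set (V → Fin (k + 3))}
    (hA : Dep S A) (hB : Dep T B) : Dep (S ∪ T) (A ∩ B) := by
  intro γ γ' h
  have h1 := hA γ γ' (fun x hx => h x (by simp [hx]))
  have h2 := hB γ γ' (fun x hx => h x (by simp [hx]))
  simp only [Set.mem_inter_iff, h1, h2]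

theorem E_Dep (t : ℕ) (u v : V) : Dep (Bs G t u v) (E G k t u v) := fun γ γ' h =>
  E_dep γ γ' t u v h

/-- one coordinate -/
theorem mu_coord (u : V) (C : Finset (Fin (k + 3))) :
    mu V k {γ | γ u ∈ C} = (C.card : ℝ≥0∞) / ((k : ℝ≥0∞) + 3) := by
  classical
  have h : {γ : V → Fin (k + 3) | γ u ∈ C} = (fun γ => γ u) ⁻¹' (C : Set (Fin (k + 3))) := rfl
  rw [h]
  have hm : (mu V k).map (fun γ => γ u) = (PMF.uniformOfFintype (Fin (k + 3))).toMeasure := by
    unfold mu unif
    exact Measure.infinitePi_map_eval _ u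
  rw [← Measure.map_apply (measurable_pi_apply u) (Set.toFinite _).measurableSet, hm,
    PMF.toMeasure_uniformOfFintype_apply _ (Set.toFinite _).measurableSet]
  simp

theorem mu_cyl [DecidableEq V] (S : Finset V) (a : V → Fin (k + 3)) :
    mu V k {γ | ∀ i ∈ S, γ i = a i} = ((1 : ℝ≥0∞) / ((k : ℝ≥0∞) + 3)) ^ S.card := by
  induction S using Finset.induction_on with
  | empty => simp
  | insert u S hu ih =>
    have h1 : {γ : V → Fin (k + 3) | ∀ i ∈ insert u S, γ i = a i} =
        {γ | γ u ∈ ({a u} : Finset (Fin (k + 3)))} ∩ {γ | ∀ i ∈ S, γ i = a i} := by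
      ext γ
      simp
    rw [h1, dep_indep (S := {u}) (T := S) ?_ ?_ (by simpa using hu), mu_coord, ih,
      card_insert_of_notMem hu, pow_succ, mul_comm]
    · simp
    · intro γ γ' h
      simp [h u (by simp)]
    · intro γ γ' h
      simp only [Set.mem_ofPred_eq]
      constructor
      · intro h2 i hi; rw [← h i hi]; exact h2 i hi
      · intro h2 i hi; rw [h i hi]; exact h2 i hi

/-- the set of allowed own colours -/
def Own (k t : ℕ) : Finset (Fin (k + 3)) := univ.filter (fun c => c = 0 ∨ k + 3 ≤ c.val + t)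

theorem Own_zero : (Own k 0).card = 1 := by
  have : Own k 0 = {0} := by
    ext c
    simp only [Own, mem_filter, mem_univ, true_and, mem_singleton]
    have := c.isLt
    constructor
    · rintro (h | h)
      · exact h
      · omega
    · intro h; exact Or.inl h
  rw [this]; rfl

theorem Own_one : (Own k 1).card ≤ 2 := by
  have : Own k 1 ⊆ {0, Fin.last (k + 2)} := by
    intro c
    simp only [Own, mem_filter, mem_univ, true_and, mem_singleton, mem_insert]
    rintro (h | h)
    · exact Or.inl h
    · right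
      apply Fin.ext
      have := c.isLt
      simp only [Fin.val_last]
      omega
  exact (card_le_card this).trans (card_le_two)

open Classical in
/-- the general recursion (union bound over pairs) -/
theorem E_step (hG : G.IsAcyclic) {d : ℕ} (hreg : G.IsRegularOfDegree (d + 1)) (t : ℕ)
    (a : ℝ≥0∞) (ha : ∀ w u, G.Adj u w → mu V k (E G k t w u) ≤ a) (u v : V) (huv : G.Adj u v) :
    mu V k (E G k (t + 1) u v) ≤
      (d.choose 2 : ℝ≥0∞) * (((Own k t).card : ℝ≥0∞) / ((k : ℝ≥0∞) + 3) * (a * a)) := by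
  set N := (G.neighborFinset u).erase v with hN
  have hNc : N.card = d := by
    rw [hN, card_erase_of_mem (by simpa using huv), G.card_neighborFinset_eq_degree, hreg u]
    rfl
  have hsub : E G k (t + 1) u v ⊆ ⋃ S ∈ N.powersetCard 2,
      ({γ | γ u ∈ Own k t} ∩ {γ | ∀ w ∈ S, γ ∈ E G k t w u}) := by
    intro γ hγ
    obtain ⟨h1, h2⟩ := hγ
    obtain ⟨S, hS, hSc⟩ := exists_subset_card_eq h2
    simp only [Set.mem_iUnion, mem_powersetCard]
    refine ⟨S, ⟨hS.trans (filter_subset _ _), hSc⟩, ?_, ?_⟩
    · simpa [Own] using h1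
    · intro w hw
      exact (mem_filter.1 (hS hw)).2
  refine (measure_mono hsub).trans ((measure_biUnion_finset_le _ _).trans ?_)
  have hterm : ∀ S ∈ N.powersetCard 2,
      mu V k ({γ | γ u ∈ Own k t} ∩ {γ | ∀ w ∈ S, γ ∈ E G k t w u}) ≤
      ((Own k t).card : ℝ≥0∞) / ((k : ℝ≥0∞) + 3) * (a * a) := by
    intro S hS
    rw [mem_powersetCard] at hS
    obtain ⟨hSN, hSc⟩ := hS
    obtain ⟨w1, w2, hne, rfl⟩ := card_eq_two.1 hSc
    have hw1 : G.Adj u w1 := by
      have := hSN (by simp : w1 ∈ ({w1, w2} : Finset V))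
      simp only [hN, mem_erase, mem_neighborFinset] at this
      exact this.2
    have hw2 : G.Adj u w2 := by
      have := hSN (by simp : w2 ∈ ({w1, w2} : Finset V))
      simp only [hN, mem_erase, mem_neighborFinset] at this
      exact this.2
    have e1 : {γ | ∀ w ∈ ({w1, w2} : Finset V), γ ∈ E G k t w u} =
        E G k t w1 u ∩ E G k t w2 u := by
      ext γ; simp
    have hd12 : Dep (Bs G t w1 u ∪ Bs G t w2 u) (E G k t w1 u ∩ E G k t w2 u) :=
      dep_inter (E_Dep t w1 u) (E_Dep t w2 u)
    have hdo : Dep {u} {γ : V → Fin (k + 3) | γ u ∈ Own k t} := by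
      intro γ γ' h
      simp [h u (by simp)]
    rw [e1, dep_indep hdo hd12, dep_indep (E_Dep t w1 u) (E_Dep t w2 u)
      (Bs_disj hG t t hw1 hw2 hne), mu_coord]
    · gcongr
      · exact ha w1 u hw1
      · exact ha w2 u hw2
    · simp only [disjoint_singleton_left, mem_union, not_or]
      exact ⟨Bs_notMem hG t hw1, Bs_notMem hG t hw2⟩
  refine (sum_le_card_nsmul _ _ _ hterm).trans ?_
  rw [card_powersetCard, hNc, nsmul_eq_mul]

end Pool.Agent.H312GHM
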